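import Pool.Agent.S09587

set_option autoImplicit false

namespace Pool.Agent.Results.MP_778a07_co.OwnStatement

/-- a branch decomposition of a graph on `n` vertices: a tree `T` all of whose vertices have
degree 1 (the leaves) or 3 (the internal vertices), and a bijection `L` from the vertices of the
graph to the leaves of `T` -/
structure BranchDecomposition (n : ℕ) where
  m : ℕ
  T : SimpleGraph (Fin m)
  isTree : T.IsTree
  degree : ∀ x, (T.neighborSet x).ncard = 1 ∨ (T.neighborSet x).ncard = 3
  L : Fin n ≃ {x : Fin m // (T.neighborSet x).ncard = 1}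

/-- `{a_1 b_1, ..., a_k b_k}` is an induced matching of `G` with all `a_i ∈ A`, `b_i ∈ B` -/
def InducedMatching {n : ℕ} (G : SimpleGraph (Fin n)) (A B : Set (Fin n)) (k : ℕ)
    (a b : Fin k → Fin n) : Prop :=
  (∀ i, a i ∈ A) ∧ (∀ i, b i ∈ B) ∧ (∀ i, G.Adj (a i) (b i)) ∧
    ∀ i j, i ≠ j → a i ≠ a j ∧ b i ≠ b j ∧ a i ≠ b j ∧
      ¬ G.Adj (a i) (a j) ∧ ¬ G.Adj (b i) (b j) ∧ ¬ G.Adj (a i) (b j)

/-- `sim_G(A, B)`: the largest size of an induced matching of `G` between `A` and `B` -/
noncomputable def sim {n : ℕ} (G : SimpleGraph (Fin n)) (A B : Set (Fin n)) : ℕ∞ :=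
  ⨆ k : {k : ℕ // ∃ a b : Fin k → Fin n, InducedMatching G A B k a b}, (k.1 : ℕ∞)

/-- the vertices of the graph mapped to the side of `u` when the edge `uw` of `T` is deleted -/
def side {n : ℕ} (D : BranchDecomposition n) (u w : Fin D.m) : Set (Fin n) :=
  {v | (D.T.deleteEdges {s(u, w)}).Reachable u (D.L v).1}

/-- the width of a branch decomposition: the maximum of `sim_G(A_e, B_e)` over the edges `e` -/
noncomputable def width {n : ℕ} (G : SimpleGraph (Fin n)) (D : BranchDecomposition n) : ℕ∞ :=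
  ⨆ e : {e : Fin D.m × Fin D.m // D.T.Adj e.1 e.2},
    sim G (side D e.1.1 e.1.2) (side D e.1.1 e.1.2)ᶜ

open Classical in
/-- the sim-width of `G`: the minimum width of a branch decomposition, `0` if `|V(G)| ≤ 1` -/
noncomputable def simw {n : ℕ} (G : SimpleGraph (Fin n)) : ℕ∞ :=
  if n ≤ 1 then 0 else ⨅ D : BranchDecomposition n, width G D

/-- Every class of graphs of bounded sim-width is chi-bounded: for every `s` there is a function
`f` with `χ(G) ≤ f(ω(G))` for every finite graph `G` of sim-width at most `s`. -/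
theorem result (s : ℕ) : ∃ f : ℕ → ℕ, ∀ (n : ℕ) (G : SimpleGraph (Fin n)),
    simw G ≤ s → G.chromaticNumber ≤ ((f G.cliqueNum : ℕ) : ℕ∞) := by
  obtain ⟨f, hf⟩ := Pool.Agent.S09587.result s
  refine ⟨fun w => f w + 1, fun n G hG => ?_⟩
  by_cases hn : n ≤ 1
  · have h1 : G.Colorable 1 := by
      refine ⟨SimpleGraph.Coloring.mk (fun _ => 0) ?_⟩
      intro v w hvw
      exfalso
      apply hvw.ne
      ext
      have := v.2
      have := w.2
      omega
    refine h1.chromaticNumber_le.trans ?_
    exact_mod_cast Nat.le_add_left 1 _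
  · rw [simw, if_neg hn] at hG
    have hlt : (⨅ D : BranchDecomposition n, width G D) < ((s + 1 : ℕ) : ℕ∞) :=
      lt_of_le_of_lt hG (by exact_mod_cast Nat.lt_succ_self s)
    obtain ⟨D, hD⟩ := iInf_lt_iff.1 hlt
    refine (hf n G ⟨D.m, D.T, fun v => (D.L v).1, D.isTree, ?_, ?_, ?_, ?_⟩).trans ?_
    · intro x
      rcases D.degree x with h | h <;> omega
    · intro v w hvw
      exact D.L.injective (Subtype.ext hvw)
    · intro x
      constructor
      · intro hx
        have h1 : (D.T.neighborSet x).ncard = 1 := by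
          rcases D.degree x with h | h <;> omega
        refine ⟨D.L.symm ⟨x, h1⟩, ?_⟩
        simp
      · rintro ⟨v, rfl⟩
        exact (D.L v).2.le
    · intro u w huw t a b ha hb hau hbu hab hind
      have h1 : (t : ℕ∞) ≤ sim G (side D u w) (side D u w)ᶜ := by
        refine le_iSup (fun k : {k : ℕ // ∃ a b : Fin k → Fin n,
          InducedMatching G (side D u w) (side D u w)ᶜ k a b} => (k.1 : ℕ∞)) ⟨t, a, b, ?_⟩
        refine ⟨hau, hbu, hab, fun i j hij => ⟨fun h => hij (ha h), fun h => hij (hb h), ?_,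
          hind i j hij⟩⟩
        intro h
        apply hbu j
        rw [← h]
        exact hau i
      have h2 : sim G (side D u w) (side D u w)ᶜ ≤ width G D :=
        le_iSup (fun e : {e : Fin D.m × Fin D.m // D.T.Adj e.1 e.2} =>
          sim G (side D e.1.1 e.1.2) (side D e.1.1 e.1.2)ᶜ) ⟨(u, w), huw⟩
      have h3 : (t : ℕ∞) < ((s + 1 : ℕ) : ℕ∞) := lt_of_le_of_lt (h1.trans h2) hD
      have : t < s + 1 := by exact_mod_cast h3
      omega
    · exact_mod_cast Nat.le_succ _

end Pool.Agent.Results.MP_778a07_co.OwnStatement
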